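import Mathlib

set_option autoImplicit false

namespace Pool.Agent.Results.MP_395f85_co.ComparableInArcs

open Finset

/-!
Weighted digraphs in which any two arcs with the same head have weights that differ at most by a
factor `L`: there is a directed cycle of weight at least `1 / L`. For `L = 1` this is the
conjecture for all weights of the form `w (uv) = β v`. (Longest path argument: the arc of the path
into a vertex is at most `L` times lighter than the arc into this vertex from the last vertex.)
-/

/-- turning a sequence into a cycle indexed by `Fin (k + 2)` -/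
theorem toFin {V : Type} (w : V → V → ℝ) (k : ℕ) (f : ℕ → V)
    (hinj : ∀ i j, i ≤ k + 1 → j ≤ k + 1 → f i = f j → i = j)
    (harc : ∀ i, i < k + 1 → 0 < w (f i) (f (i + 1))) (hlast : 0 < w (f (k + 1)) (f 0)) :
    Function.Injective (fun i : Fin (k + 2) => f i) ∧
      (∀ i : Fin (k + 2), 0 < w (f i) (f (finRotate (k + 2) i : Fin (k + 2)))) ∧
      ∑ i : Fin (k + 2), w (f i) (f (finRotate (k + 2) i : Fin (k + 2))) =
        ∑ i ∈ range (k + 1), w (f i) (f (i + 1)) + w (f (k + 1)) (f 0) := by
  have hrot : ∀ i : Fin (k + 1), ((finRotate (k + 2) i.castSucc : Fin (k + 2)) : ℕ) = i + 1 := by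
    intro i
    have h := finRotate_of_lt (n := k + 1) (k := (i : ℕ)) i.2
    have h2 : (i.castSucc : Fin (k + 2)) = ⟨(i : ℕ), by omega⟩ := rfl
    rw [h2, h]
  refine ⟨?_, ?_, ?_⟩
  · intro i j hij
    exact Fin.ext (hinj i j (by omega) (by omega) hij)
  · intro i
    refine Fin.lastCases ?_ (fun j => ?_) i
    · rw [finRotate_last]
      exact hlast
    · rw [hrot j]
      exact harc j j.2
  · rw [Fin.sum_univ_castSucc, finRotate_last]
    congr 1
    rw [← Fin.sum_univ_eq_sum_range (fun i => w (f i) (f (i + 1))) (k + 1)]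
    refine Finset.sum_congr rfl fun i _ => ?_
    rw [hrot i]
    rfl

/-- the case of arcs with the same head -/
theorem core {V : Type} [Fintype V] [Nonempty V] (w : V → V → ℝ) (L : ℝ)
    (h0 : ∀ u v, 0 ≤ w u v) (hloop : ∀ v, w v v = 0)
    (hout : ∀ v, 1 ≤ ∑ u, w v u)
    (hL : ∀ u u' v, 0 < w u v → 0 < w u' v → w u v ≤ L * w u' v) :
    ∃ (k : ℕ) (f : ℕ → V), (∀ i j, i ≤ k + 1 → j ≤ k + 1 → f i = f j → i = j) ∧
      (∀ i, i < k + 1 → 0 < w (f i) (f (i + 1))) ∧ 0 < w (f (k + 1)) (f 0) ∧
      1 ≤ L * (∑ i ∈ range (k + 1), w (f i) (f (i + 1)) + w (f (k + 1)) (f 0)) := by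
  classical
  let P : ℕ → Prop := fun m => ∃ f : ℕ → V, (∀ i j, i ≤ m → j ≤ m → f i = f j → i = j) ∧
    ∀ i, i < m → 0 < w (f i) (f (i + 1))
  have hP0 : P 0 := by
    refine ⟨fun _ => Classical.arbitrary V, fun i j hi hj _ => by omega, fun i hi => by omega⟩
  have hPb : ∀ m, P m → m ≤ Fintype.card V := by
    rintro m ⟨f, hf, _⟩
    have : Function.Injective (fun i : Fin (m + 1) => f i) := by
      intro i j hij
      exact Fin.ext (hf i j (by omega) (by omega) hij)
    have := Fintype.card_le_of_injective _ this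
    rw [Fintype.card_fin] at this
    omega
  obtain ⟨m, hm, hmax⟩ : ∃ m, P m ∧ ∀ m', P m' → m' ≤ m := by
    refine ⟨Nat.findGreatest P (Fintype.card V), ?_, ?_⟩
    · exact Nat.findGreatest_spec (P := P) (Nat.zero_le _) hP0
    · intro m' hm'
      exact Nat.le_findGreatest (hPb m' hm') hm'
  obtain ⟨f, hf, hfR⟩ := hm
  have hon : ∀ u, 0 < w (f m) u → ∃ i, i < m ∧ f i = u := by
    intro u hu
    by_contra hcon
    push Not at hcon
    have hne : ∀ i, i ≤ m → f i ≠ u := by
      intro i hi h
      rcases Nat.lt_or_eq_of_le hi with h1 | h1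
      · exact hcon i h1 h
      · rw [h1] at h
        rw [← h, hloop] at hu
        exact lt_irrefl _ hu
    have : P (m + 1) := by
      refine ⟨fun i => if i = m + 1 then u else f i, ?_, ?_⟩
      · intro i j hi hj hij
        by_cases h1 : i = m + 1 <;> by_cases h2 : j = m + 1
        · omega
        · simp only [h1, h2, if_true, if_false] at hij
          exact absurd hij.symm (hne j (by omega))
        · simp only [h1, h2, if_true, if_false] at hij
          exact absurd hij (hne i (by omega))
        · simp only [h1, h2, if_false] at hij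
          exact hf i j (by omega) (by omega) hij
      · intro i hi
        have h1 : i ≠ m + 1 := by omega
        by_cases h2 : i + 1 = m + 1
        · have : i = m := by omega
          simp only [h1, h2, if_true, if_false]
          rw [this]; exact hu
        · simp only [h1, h2, if_false]
          exact hfR i (by omega)
    have := hmax _ this
    omega
  have hex : ∃ i, 0 < w (f m) (f i) ∧ i < m := by
    have : ∃ u, 0 < w (f m) u := by
      by_contra h
      push Not at h
      have : ∑ u, w (f m) u ≤ 0 := Finset.sum_nonpos fun u _ => h u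
      linarith [hout (f m)]
    obtain ⟨u, hu⟩ := this
    obtain ⟨i, hi, rfl⟩ := hon u hu
    exact ⟨i, hu, hi⟩
  set a := Nat.find hex with ha
  have ha1 := (Nat.find_spec hex).1
  have ha2 := (Nat.find_spec hex).2
  have hamin : ∀ i, i < m → 0 < w (f m) (f i) → a ≤ i := by
    intro i hi h
    exact Nat.find_min' hex ⟨h, hi⟩
  obtain ⟨k, hk⟩ : ∃ k, m = a + (k + 1) := ⟨m - a - 1, by omega⟩
  have hgi : ∀ i j, i ≤ k + 1 → j ≤ k + 1 → f (a + i) = f (a + j) → i = j := by
    intro i j hi hj hij
    have := hf (a + i) (a + j) (by omega) (by omega) hij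
    omega
  have hga : ∀ i, i < k + 1 → 0 < w (f (a + i)) (f (a + (i + 1))) := by
    intro i hi
    exact hfR (a + i) (by omega)
  have hgl : 0 < w (f (a + (k + 1))) (f (a + 0)) := by
    rw [← hk]
    exact ha1
  have hL1 : 1 ≤ L := by
    have := hL _ _ _ hgl hgl
    by_contra h
    push Not at h
    nlinarith
  refine ⟨k, fun i => f (a + i), hgi, hga, hgl, ?_⟩
  set z := f (a + (k + 1)) with hz
  have hzm : z = f m := by rw [hz, ← hk]
  have hsum : ∑ u, w z u = ∑ i ∈ range (k + 1), w z (f (a + i)) := by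
    have e1 : ∑ u, w z u = ∑ u ∈ (range (k + 1)).image (fun i => f (a + i)), w z u := by
      symm
      apply Finset.sum_subset (subset_univ _)
      intro u _ hu
      by_contra hne
      have hpos : 0 < w z u := lt_of_le_of_ne (h0 _ _) (Ne.symm hne)
      apply hu
      obtain ⟨i, hi, hiu⟩ := hon u (by rw [← hzm]; exact hpos)
      have hai := hamin i hi (by rw [hiu, ← hzm]; exact hpos)
      rw [mem_image]
      refine ⟨i - a, mem_range.2 (by omega), ?_⟩
      have : a + (i - a) = i := by omega
      simp only [this]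
      exact hiu
    rw [e1, Finset.sum_image]
    intro i hi j hj hij
    have hi' := mem_range.1 (Finset.mem_coe.1 hi)
    have hj' := mem_range.1 (Finset.mem_coe.1 hj)
    exact hgi i j (by omega) (by omega) hij
  have h1 : 1 ≤ ∑ i ∈ range (k + 1), w z (f (a + i)) := by
    rw [← hsum]
    exact hout z
  rw [Finset.sum_range_succ'] at h1
  have h2 : ∑ i ∈ range k, w z (f (a + (i + 1))) ≤
      ∑ i ∈ range k, L * w (f (a + i)) (f (a + (i + 1))) := by
    refine Finset.sum_le_sum fun i hi => ?_
    have hi' := mem_range.1 hi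
    have hp := hga i (by omega)
    rcases (h0 z (f (a + (i + 1)))).lt_or_eq with h | h
    · exact hL _ _ _ h hp
    · rw [← h]
      positivity
  have h3 : w z (f (a + 0)) ≤ L * w z (f (a + 0)) := hL _ _ _ hgl hgl
  have h4 : 0 ≤ L * w (f (a + k)) (f (a + (k + 1))) :=
    mul_nonneg (by linarith) (h0 _ _)
  rw [← Finset.mul_sum] at h2
  show 1 ≤ L * (∑ i ∈ range (k + 1), w (f (a + i)) (f (a + (i + 1))) + w z (f (a + 0)))
  rw [Finset.sum_range_succ]
  have h5 : L * (∑ i ∈ range k, w (f (a + i)) (f (a + (i + 1))) +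
      w (f (a + k)) (f (a + (k + 1))) + w z (f (a + 0))) =
      L * ∑ i ∈ range k, w (f (a + i)) (f (a + (i + 1))) +
      L * w (f (a + k)) (f (a + (k + 1))) + L * w z (f (a + 0)) := by ring
  rw [h5]
  linarith

theorem result (V : Type) [Fintype V] [Nonempty V] (w : V → V → ℝ) (L : ℝ)
    (h0 : ∀ u v, 0 ≤ w u v) (hloop : ∀ v, w v v = 0)
    (hout : ∀ v, 1 ≤ ∑ u, w v u)
    (hL : ∀ u u' v, 0 < w u v → 0 < w u' v → w u v ≤ L * w u' v) :
    ∃ (k : ℕ) (f : Fin (k + 2) → V), Function.Injective f ∧
      (∀ i, 0 < w (f i) (f (finRotate (k + 2) i))) ∧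
      1 ≤ L * ∑ i, w (f i) (f (finRotate (k + 2) i)) := by
  obtain ⟨k, f, h1, h2, h3, h4⟩ := core w L h0 hloop hout hL
  obtain ⟨g1, g2, g3⟩ := toFin w k f h1 h2 h3
  exact ⟨k, fun i => f i, g1, g2, by rw [g3]; exact h4⟩

end Pool.Agent.Results.MP_395f85_co.ComparableInArcs
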